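import Pool.Agent.N165.KM.Rel

/-!
# MP_20d318_ag: the nef cone conjecture passes to intermediate bases

Let `X → Y → Z` be contractions. The cone conjecture for `(X/Z, Δ)` implies the cone conjecture for
`(X/Y, Δ)`, if the automorphisms of `(X/Z, Δ)` which fix the class of an ample divisor of `Y/Z` induce
only finitely many automorphisms of `Y`, up to automorphisms which act trivially on `N^1(X/Z)` (such as
the elements of a connected algebraic group acting on `X`).

Method. Let `l` be the class in `N^1(X/Z)` of an ample divisor on `Y/Z` and let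
`A^e(X/Z) = ⋃ g_* cone S`. For `x` in `A^e(X/Z)` and large `t` let `u_* (x + t l)` be in `cone S`.
Comparing the values of a linear form which is integral and positive on the nef cone one sees that
`u_* l` is bounded, independently of `x`. So there are only finitely many possibilities for `u_* l`, and
up to an automorphism which fixes `l` only finitely many possibilities for `u`.

`Pool.Agent.Y167.cone S` is the convex cone generated by the finite set `S`.
-/

namespace Pool.Agent.Results.MP_20d318_ag.IntermediateBases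

open Pool.Agent.Y167 (cone)
open Pool.Agent.N165.KM

/-- The vector `x` has integral coordinates. -/
def Integral {ρ : ℕ} (x : Fin ρ → ℝ) : Prop := ∀ i, ∃ m : ℤ, x i = m

/-- The numerical data of a klt log Calabi–Yau pair `(X/Z, Δ)` over `Z`. A basis of the lattice of the
classes of Cartier divisors identifies `N^1(X/Z)` with `ℝ^ρ` and this lattice with `ℤ^ρ`. -/
structure CYPair where
  /-- the relative Picard number -/
  ρ : ℕ
  /-- the nef cone `Nef(X/Z)` -/
  Nef : Set (Fin ρ → ℝ)
  /-- the effective cone `Eff(X/Z)` -/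
  Eff : Set (Fin ρ → ℝ)
  /-- the group `Aut(X/Z, Δ)` -/
  Aut : Type
  [grp : Group Aut]
  /-- the push-forward `g_*` of classes by an automorphism -/
  push : Aut → ((Fin ρ → ℝ) ≃ₗ[ℝ] (Fin ρ → ℝ))
  push_mul : ∀ f g, push (f * g) = push f * push g
  push_int : ∀ f x, Integral x → Integral (push f x)
  push_nef : ∀ f, ∀ x ∈ Nef, push f x ∈ Nef
  push_eff : ∀ f, ∀ x ∈ Eff, push f x ∈ Eff
  /-- the nef cone is a closed convex cone without lines, with nonempty interior -/
  nef_closed : IsClosed Nef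
  nef_add : ∀ x ∈ Nef, ∀ y ∈ Nef, x + y ∈ Nef
  nef_smul : ∀ t : ℝ, 0 ≤ t → ∀ x ∈ Nef, t • x ∈ Nef
  nef_line : ∀ x ∈ Nef, -x ∈ Nef → x = 0
  ample : (interior Nef).Nonempty
  /-- the effective cone is a convex cone which contains the ample classes -/
  eff_add : ∀ x ∈ Eff, ∀ y ∈ Eff, x + y ∈ Eff
  eff_smul : ∀ t : ℝ, 0 ≤ t → ∀ x ∈ Eff, t • x ∈ Eff
  ample_eff : interior Nef ⊆ Eff

attribute [instance] CYPair.grp

/-- The cone conjecture for `(X/Z, Δ)`: some rational polyhedral cone `cone S` is a fundamental domain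
for the action of `Aut(X/Z, Δ)` on `A^e(X/Z)`. -/
def ConeConjecture (X : CYPair) : Prop :=
  ∃ S : Finset (Fin X.ρ → ℝ), (∀ s ∈ S, Integral s) ∧
    X.Nef ∩ X.Eff = ⋃ g : X.Aut, X.push g '' cone S ∧
    ∀ g : X.Aut, X.push g ≠ 1 → interior (cone S) ∩ X.push g '' interior (cone S) = ∅

/-- `X` is the pair `(X/Z, Δ)` and `R` is the pair `(X/Y, Δ)`, where `X → Y → Z` are morphisms with
connected fibres. -/
structure IsIntermediateBase (X R : CYPair) where
  /-- the class of the pull-back of an ample divisor on `Y/Z` -/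
  l : Fin X.ρ → ℝ
  l_int : Integral l
  l_nef : l ∈ X.Nef
  l_eff : l ∈ X.Eff
  /-- the map `N^1(X/Z) → N^1(X/Y)` -/
  res : (Fin X.ρ → ℝ) →ₗ[ℝ] (Fin R.ρ → ℝ)
  res_int : ∀ x, Integral x → Integral (res x)
  res_nef : ∀ x ∈ X.Nef, res x ∈ R.Nef
  res_eff : ∀ x ∈ X.Eff, res x ∈ R.Eff
  res_l : res l = 0
  /-- every class in `A^e(X/Y)` comes from `A^e(X/Z)`: if `D` is an effective divisor which is nef over
  `Y`, then `D + t l` is nef over `Z` for large `t` by the cone theorem for `(X, Δ + ε D)` -/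
  lift : ∀ y ∈ R.Nef ∩ R.Eff, ∃ x ∈ X.Nef ∩ X.Eff, res x = y
  /-- the inclusion `Aut(X/Y, Δ) → Aut(X/Z, Δ)` -/
  inc : R.Aut → X.Aut
  inc_push : ∀ g x, res (X.push (inc g) x) = R.push g (res x)
  /-- the automorphisms of `Y/Z` -/
  AutY : Type
  /-- the automorphism of `Y/Z` which is induced by an automorphism of `X/Z` fixing `l` -/
  ind : X.Aut → AutY
  /-- automorphisms which induce the same automorphism of `Y` differ by an element of
  `Aut(X/Y, Δ)` -/
  ind_eq : ∀ f k, X.push f l = l → X.push k l = l → ind f = ind k → ∃ g, f = inc g * k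
  /-- an automorphism which induces an automorphism of `Y` preserves the kernel of
  `N^1(X/Z) → N^1(X/Y)` -/
  ker : ∀ f, X.push f l = l → ∀ x, res x = 0 → res (X.push f x) = 0

/-- Up to automorphisms which act trivially on `N^1(X/Z)`, the automorphisms of `(X/Z, Δ)` which fix
`l` induce only finitely many automorphisms of `Y`. -/
def FiniteOnBase {X R : CYPair} (π : IsIntermediateBase X R) : Prop :=
  ∃ K : Set X.Aut, K.Finite ∧ (∀ k ∈ K, X.push k π.l = π.l) ∧
    ∀ f, X.push f π.l = π.l → ∃ k ∈ K, ∃ h, X.push h = 1 ∧ π.ind f = π.ind (h * k)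

theorem push_one (X : CYPair) : X.push 1 = 1 := by
  have h := X.push_mul 1 1
  rw [mul_one] at h
  exact (mul_eq_left.1 h.symm)

theorem push_inv_apply (X : CYPair) (f : X.Aut) (x : Fin X.ρ → ℝ) :
    X.push f⁻¹ (X.push f x) = x := by
  have h := X.push_mul f⁻¹ f
  rw [inv_mul_cancel, push_one] at h
  have h2 : (X.push f⁻¹ * X.push f) x = x := by rw [← h]; rfl
  exact h2

theorem sandwich (X : CYPair) : Sandwich X.Nef (X.Nef ∩ X.Eff) where
  closed := X.nef_closed
  add := X.nef_add
  smul := X.nef_smul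
  pointed := X.nef_line
  int := X.ample
  Nsub := Set.inter_subset_left
  Nint := fun x hx => ⟨interior_subset hx, X.ample_eff hx⟩
  Nadd := fun x hx y hy => ⟨X.nef_add x hx.1 y hy.1, X.eff_add x hx.2 y hy.2⟩
  Nsmul := fun t ht x hx => ⟨X.nef_smul t ht x hx.1, X.eff_smul t ht x hx.2⟩

theorem hasFD_iff (X : CYPair) :
    ConeConjecture X ↔ HasFD (fun f : X.Aut => X.push f⁻¹) (X.Nef ∩ X.Eff) := by
  have key : ∀ S : Finset (Fin X.ρ → ℝ), (⋃ g : X.Aut, X.push g '' cone S) =
      ⋃ g : X.Aut, X.push g⁻¹ '' cone S := fun S =>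
    ((Equiv.inv X.Aut).surjective.iUnion_comp (fun g => X.push g '' cone S)).symm
  constructor
  · rintro ⟨S, h1, h2, h3⟩
    exact ⟨S, h1, by rw [h2, key], fun f hf => h3 f⁻¹ hf⟩
  · rintro ⟨S, h1, h2, h3⟩
    refine ⟨S, h1, by rw [h2, key], fun f hf => ?_⟩
    have h4 := h3 f⁻¹ (by simpa using hf)
    simpa using h4

/-- **Intermediate bases.** Let `X → Y → Z` be contractions. If the cone conjecture holds for
`(X/Z, Δ)` and the automorphisms of `(X/Z, Δ)` which fix `l` induce only finitely many automorphisms of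
`Y`, up to automorphisms which act trivially on `N^1(X/Z)`, then the cone conjecture holds for
`(X/Y, Δ)`. -/
theorem result (X R : CYPair) (π : IsIntermediateBase X R) (hfin : FiniteOnBase π)
    (hX : ConeConjecture X) : ConeConjecture R := by
  classical
  rw [hasFD_iff] at hX ⊢
  obtain ⟨K, hK, hKl, hKf⟩ := hfin
  have hmul : ∀ P : CYPair, ∀ f g : P.Aut, P.push (f * g)⁻¹ = P.push g⁻¹ * P.push f⁻¹ := by
    intro P f g
    rw [mul_inv_rev, P.push_mul]
  have hfix : ∀ f : X.Aut, X.push f π.l = π.l → X.push f⁻¹ π.l = π.l := by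
    intro f hf
    conv_lhs => rw [← hf]
    exact push_inv_apply X f π.l
  refine relative (sandwich X) (sandwich R) (hmul X) (hmul R)
    (fun f x hx => X.push_int f⁻¹ x hx)
    (fun f x hx => ⟨X.push_nef f⁻¹ x hx.1, X.push_eff f⁻¹ x hx.2⟩)
    (fun f x hx => R.push_int f⁻¹ x hx)
    (fun f x hx => ⟨R.push_nef f⁻¹ x hx.1, R.push_eff f⁻¹ x hx.2⟩)
    π.l π.l_int ⟨π.l_nef, π.l_eff⟩ π.res (fun x hx => π.res_int x hx)
    (fun x hx => ⟨π.res_nef x hx.1, π.res_eff x hx.2⟩) π.res_l
    (fun y hy => π.lift y ((sandwich R).Nint hy)) (fun y hy => Or.inr (π.lift y hy))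
    π.inc ?_ (fun f hf x hx => ?_) K hK (fun k hk => hfix k (hKl k hk)) ?_ hX
  · intro g x
    have h1 := π.inc_push g (X.push (π.inc g)⁻¹ x)
    have h2 : X.push (π.inc g) (X.push (π.inc g)⁻¹ x) = x := by
      have := push_inv_apply X (π.inc g)⁻¹ x
      rwa [inv_inv] at this
    rw [h2] at h1
    show π.res (X.push (π.inc g)⁻¹ x) = R.push g⁻¹ (π.res x)
    rw [h1]
    exact (push_inv_apply R g _).symm
  · exact π.ker f⁻¹ hf x hx
  · intro f hf
    have hf' : X.push f π.l = π.l := by
      have := hfix f⁻¹ hf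
      rwa [inv_inv] at this
    obtain ⟨k, hk, h, hh, hb⟩ := hKf f hf'
    have hhk : X.push (h * k) π.l = π.l := by
      rw [X.push_mul, hh]
      exact hKl k hk
    obtain ⟨g, hg⟩ := π.ind_eq f (h * k) hf' hhk hb
    refine ⟨k, hk, g, fun x => ?_⟩
    have h1 : X.push f⁻¹ = X.push k⁻¹ * X.push (π.inc g)⁻¹ := by
      have h2 : X.push h⁻¹ = 1 := by
        have h3 := X.push_mul h⁻¹ h
        rw [inv_mul_cancel, push_one, hh, mul_one] at h3
        exact h3.symm
      rw [hg, mul_inv_rev, mul_inv_rev, X.push_mul, X.push_mul, h2, mul_one]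
    show π.res (X.push f⁻¹ x) = _
    rw [h1]
    rfl

end Pool.Agent.Results.MP_20d318_ag.IntermediateBases
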