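import Pool.Agent.N110.CC.Res

/-!
The nef cone conjecture for varieties with an abelian group of automorphisms of maximal rank.
-/

set_option autoImplicit false

open FF Pool.Agent.W602.GT Pool.Agent.Y172 Pool.Agent.R887 Pool.Agent.N110 Pool.Agent.N110.CC

/-- Let `X` be a normal projective variety of dimension `n ≥ 1`, with generic point `y`. Let the
vectors `c P` be the classes of the prime divisors in `N¹(X) = ℤ ^ (r + 1)`, `r ≥ 1` (if `X` is
`ℚ`-factorial then `r + 1` is the Picard number of `X`). Let `ℤ ^ r` act on `X` by automorphisms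
`f_v`, given by the automorphisms `φ v = f_v^*` of the function field, and suppose that `f_v` has
positive entropy (the first dynamical degree is greater than `1`) for all `v ≠ 0`. So the rank of the
group is the Picard number of `X` minus one, the greatest possible value. Let `Δ` be a divisor
preserved by the maps `f_v`, for instance `Δ = 0`.

Then the effective cone of `X` is contained in the nef cone, all its elements `x ≠ 0` are in the
interior of the nef cone (they are ample classes), and the nef cone conjecture holds for `(X, Δ)`: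
the action of the group of all automorphisms of `X` which preserve `Δ` on the cone
`Nef(X) ∩ Eff(X)` has a rational polyhedral fundamental domain. -/
theorem Pool.Agent.Results.MP_20d318_ag.MaximalRankNef.result
    {K : Type} [Field K] [Algebra ℂ K] {N n r : ℕ} {y : Fin (N + 1) → K} (hy : NormalModel y)
    (hn : Algebra.trdeg ℂ K = n) (hn0 : 0 < n) (hr : 0 < r)
    {c : Place ℂ K → Fin (r + 1) → ℤ} (hc : PicardBasis y c)
    {φ : (Fin r → ℤ) → (K ≃ₐ[ℂ] K)} (hφ : ∀ u v, φ (u + v) = φ u * φ v)
    (haut : ∀ v, IsAut (φ v) y) (hent : ∀ v, v ≠ 0 → 1 < dynDegree (φ v) y n 1)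
    {Δ : Place ℂ K → ℝ} (hΔ : ∀ v, Preserves (φ v) y Δ) :
    effCone y c ⊆ nefCone y n c ∧
      (∀ x ∈ effCone y c, x ≠ 0 → x ∈ interior (nefCone y n c)) ∧
      HasFundDomain {T | ∃ ψ, IsAut ψ y ∧ Preserves ψ y Δ ∧ IsPullBack y c ψ T}
        (nefCone y n c ∩ effCone y c) := by
  have h := (cc_nef hy hn hn0 hr hc (𝒮 := autGroup y) (fun _ h => h) hφ haut hent).1
  exact ⟨h, fun x hx hx0 => interior_mono h
    (eff_int hy hn hn0 hr hc hφ (fun v => isAut_ps hy (haut v)) hent hx hx0),
    cc_nefD hy hn hn0 hr hc hφ haut hent hΔ⟩
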